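import Pool.Agent.Lib.MP_2541dc_coB.Defs

/-! # Leaf A: first properties -/

set_option autoImplicit false

namespace Zar93

private theorem Basic_bdd (n t : ℕ) :
    BddAbove {m : ℕ | ∃ S : Finset (Fin n × Fin n), S.card = m ∧ Free t S} := by
  refine ⟨(Finset.univ : Finset (Fin n × Fin n)).card, ?_⟩
  rintro m ⟨S, rfl, -⟩
  exact Finset.card_le_card (Finset.subset_univ S)

theorem le_z {n t : ℕ} {S : Finset (Fin n × Fin n)} (h : Free t S) : S.card ≤ z n t :=
  le_csSup (Basic_bdd n t) ⟨S, rfl, h⟩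

theorem exists_max {n t : ℕ} (ht : 1 ≤ t) :
    ∃ S : Finset (Fin n × Fin n), Free t S ∧ S.card = z n t := by
  have hne : {m : ℕ | ∃ S : Finset (Fin n × Fin n), S.card = m ∧ Free t S}.Nonempty := by
    refine ⟨0, ∅, rfl, ?_⟩
    intro A B hA hB hAB
    obtain ⟨a, ha⟩ := Finset.card_pos.1 (by omega : 0 < A.card)
    obtain ⟨b, hb⟩ := Finset.card_pos.1 (by omega : 0 < B.card)
    have h1 := hAB (Finset.mk_mem_product ha hb)
    exact absurd h1 (Finset.notMem_empty _)
  obtain ⟨S, h1, h2⟩ := Nat.sSup_mem hne (Basic_bdd n t)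
  exact ⟨S, h2, h1⟩

private theorem Basic_card {m n : ℕ} (e : Fin m ↪ Fin n) (A : Finset (Fin n))
    (hA : ∀ a ∈ A, ∃ i, e i = a) : (Finset.univ.filter fun i => e i ∈ A).card = A.card := by
  rw [← Finset.card_map e]
  congr 1
  ext a
  simp only [Finset.mem_map, Finset.mem_filter, Finset.mem_univ, true_and]
  constructor
  · rintro ⟨i, hi, rfl⟩
    exact hi
  · intro ha
    obtain ⟨i, rfl⟩ := hA a ha
    exact ⟨i, ha, rfl⟩

theorem z_mono {m n t : ℕ} (ht : 1 ≤ t) (h : m ≤ n) : z m t ≤ z n t := by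
  obtain ⟨S, hS, hc⟩ := exists_max (n := m) ht
  obtain ⟨e⟩ : Nonempty (Fin m ↪ Fin n) := ⟨Fin.castLEEmb h⟩
  have hE : (S.map (e.prodMap e)).card = z m t := by rw [Finset.card_map, hc]
  rw [← hE]
  refine le_z ?_
  intro A B hA hB hAB
  have key : ∀ a ∈ A, ∀ b ∈ B, ∃ x y, (x, y) ∈ S ∧ e x = a ∧ e y = b := by
    intro a ha b hb
    have h1 := hAB (Finset.mk_mem_product ha hb)
    obtain ⟨p, hp, hpe⟩ := Finset.mem_map.1 h1
    have h2 : (e p.1, e p.2) = (a, b) := hpe
    exact ⟨p.1, p.2, hp, (Prod.ext_iff.1 h2).1, (Prod.ext_iff.1 h2).2⟩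
  obtain ⟨a0, ha0⟩ := Finset.card_pos.1 (by omega : 0 < A.card)
  obtain ⟨b0, hb0⟩ := Finset.card_pos.1 (by omega : 0 < B.card)
  have hA' : ∀ a ∈ A, ∃ i, e i = a := fun a ha => by
    obtain ⟨x, y, _, hx, _⟩ := key a ha b0 hb0
    exact ⟨x, hx⟩
  have hB' : ∀ b ∈ B, ∃ i, e i = b := fun b hb => by
    obtain ⟨x, y, _, _, hy⟩ := key a0 ha0 b hb
    exact ⟨y, hy⟩
  refine hS (Finset.univ.filter fun i => e i ∈ A) (Finset.univ.filter fun i => e i ∈ B)
    (by rw [Basic_card e A hA', hA]) (by rw [Basic_card e B hB', hB]) ?_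
  intro p hp
  rw [Finset.mem_product, Finset.mem_filter, Finset.mem_filter] at hp
  obtain ⟨x, y, hxy, hx, hy⟩ := key _ hp.1.2 _ hp.2.2
  have h1 : x = p.1 := e.injective hx
  have h2 : y = p.2 := e.injective hy
  rw [h1, h2] at hxy
  exact hxy

/-- One row of ones. -/
theorem le_z_self {m t : ℕ} (ht : 2 ≤ t) : m ≤ z m t := by
  cases m with
  | zero => exact Nat.zero_le _
  | succ k =>
    have hc : (({0} : Finset (Fin (k + 1))) ×ˢ (Finset.univ : Finset (Fin (k + 1)))).card =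
        k + 1 := by
      rw [Finset.card_product, Finset.card_singleton, one_mul, Finset.card_univ,
        Fintype.card_fin]
    rw [← hc]
    refine (le_z (t := t) ?_).trans (le_of_eq (by rw [hc]))
    intro A B hA hB hAB
    obtain ⟨a, ha, ha0⟩ := Finset.exists_mem_ne (by omega : 1 < A.card) 0
    obtain ⟨b, hb⟩ := Finset.card_pos.1 (by omega : 0 < B.card)
    have h1 := hAB (Finset.mk_mem_product ha hb)
    rw [Finset.mem_product, Finset.mem_singleton] at h1
    exact ha0 h1.1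

end Zar93
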