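import Pool.Agent.Lib.MP_2541dc_coB.Basic

/-! # Leaf E: cutting into blocks -/

set_option autoImplicit false

namespace Zar93

private theorem blk_inj {n m : ℕ} (hm : 1 ≤ m) {X : Finset (Fin n)} (hX : X.card ≤ m) :
    ∃ g : Fin n → Fin m, Set.InjOn g X := by
  classical
  have hc : Fintype.card {x // x ∈ X} ≤ Fintype.card (Fin m) := by
    rw [Fintype.card_coe, Fintype.card_fin]
    exact hX
  obtain ⟨f⟩ := Function.Embedding.nonempty_of_card_le hc
  refine ⟨fun x => if hx : x ∈ X then f ⟨x, hx⟩ else ⟨0, hm⟩, ?_⟩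
  intro x hx y hy hxy
  have hx' : x ∈ X := hx
  have hy' : y ∈ X := hy
  simp only [dif_pos hx', dif_pos hy'] at hxy
  exact congrArg Subtype.val (f.injective hxy)

private theorem blk_card {n m t : ℕ} {X A' : Finset (Fin n)} {g : Fin n → Fin m}
    (hg : Set.InjOn g X) {A : Finset (Fin m)} (hA : A.card = t)
    (hon : ∀ a ∈ A, ∃ x ∈ X, g x = a) (hA' : A' = X.filter fun x => g x ∈ A) : A'.card = t := by
  classical
  have h1 : A'.image g = A := by
    ext a
    rw [Finset.mem_image]
    constructor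
    · rintro ⟨x, hx, rfl⟩
      rw [hA', Finset.mem_filter] at hx
      exact hx.2
    · intro ha
      obtain ⟨x, hx, rfl⟩ := hon a ha
      exact ⟨x, by rw [hA', Finset.mem_filter]; exact ⟨hx, ha⟩, rfl⟩
  rw [← hA, ← h1]
  refine (Finset.card_image_of_injOn (hg.mono ?_)).symm
  intro x hx
  rw [hA', Finset.coe_filter] at hx
  exact hx.1

private theorem blk_small {n m t : ℕ} (hm : 1 ≤ m) {X Y : Finset (Fin n)}
    {S : Finset (Fin n × Fin n)} (hS : S ⊆ X ×ˢ Y) (hX : X.card ≤ m) (hY : Y.card ≤ m)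
    (h : Free t S) : S.card ≤ z m t := by
  classical
  obtain ⟨g, hg⟩ := blk_inj hm hX
  obtain ⟨g', hg'⟩ := blk_inj hm hY
  have hinj : Set.InjOn (fun p : Fin n × Fin n => (g p.1, g' p.2)) (S : Set (Fin n × Fin n)) := by
    intro p hp q hq hpq
    have hp' := Finset.mem_product.1 (hS (Finset.mem_coe.1 hp))
    have hq' := Finset.mem_product.1 (hS (Finset.mem_coe.1 hq))
    simp only [Prod.mk.injEq] at hpq
    exact Prod.ext (hg hp'.1 hq'.1 hpq.1) (hg' hp'.2 hq'.2 hpq.2)
  rw [← Finset.card_image_of_injOn hinj]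
  refine le_z ?_
  intro A B hA hB hAB
  rcases Nat.eq_zero_or_pos t with ht | ht
  · subst ht
    exact h ∅ ∅ rfl rfl (by rw [Finset.empty_product]; exact Finset.empty_subset _)
  · have key : ∀ a ∈ A, ∀ b ∈ B, ∃ x y, (x, y) ∈ S ∧ g x = a ∧ g' y = b := by
      intro a ha b hb
      obtain ⟨p, hp, hpe⟩ := Finset.mem_image.1 (hAB (Finset.mk_mem_product ha hb))
      simp only [Prod.mk.injEq] at hpe
      exact ⟨p.1, p.2, hp, hpe.1, hpe.2⟩
    obtain ⟨a0, ha0⟩ := Finset.card_pos.1 (by omega : 0 < A.card)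
    obtain ⟨b0, hb0⟩ := Finset.card_pos.1 (by omega : 0 < B.card)
    have honA : ∀ a ∈ A, ∃ x ∈ X, g x = a := by
      intro a ha
      obtain ⟨x, y, hxy, hx, _⟩ := key a ha b0 hb0
      exact ⟨x, (Finset.mem_product.1 (hS hxy)).1, hx⟩
    have honB : ∀ b ∈ B, ∃ y ∈ Y, g' y = b := by
      intro b hb
      obtain ⟨x, y, hxy, _, hy⟩ := key a0 ha0 b hb
      exact ⟨y, (Finset.mem_product.1 (hS hxy)).2, hy⟩
    refine h (X.filter fun x => g x ∈ A) (Y.filter fun y => g' y ∈ B) (blk_card hg hA honA rfl)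
      (blk_card hg' hB honB rfl) ?_
    intro p hp
    rw [Finset.mem_product, Finset.mem_filter, Finset.mem_filter] at hp
    obtain ⟨x, y, hxy, hx, hy⟩ := key _ hp.1.2 _ hp.2.2
    have hxy' := Finset.mem_product.1 (hS hxy)
    have h1 : x = p.1 := hg hxy'.1 hp.1.1 hx
    have h2 : y = p.2 := hg' hxy'.2 hp.2.1 hy
    rw [h1, h2] at hxy
    exact hxy

/-- an enumeration -/
private theorem blk_enum {n : ℕ} (X : Finset (Fin n)) :
    ∃ f : Fin n → ℕ, Set.InjOn f X ∧ ∀ x ∈ X, f x < X.card := by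
  classical
  refine ⟨fun x => if hx : x ∈ X then (X.equivFin ⟨x, hx⟩ : ℕ) else 0, ?_, ?_⟩
  · intro x hx y hy hxy
    have hx' : x ∈ X := hx
    have hy' : y ∈ X := hy
    simp only [dif_pos hx', dif_pos hy'] at hxy
    exact congrArg Subtype.val (X.equivFin.injective (Fin.ext hxy))
  · intro x hx
    simp only [dif_pos hx]
    exact (X.equivFin ⟨x, hx⟩).isLt

private theorem blk_le {n m : ℕ} (hm : 1 ≤ m) {X : Finset (Fin n)} {f : Fin n → ℕ}
    (hf : Set.InjOn f X) (i : ℕ) : (X.filter fun x => f x / m = i).card ≤ m := by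
  classical
  have h1 : (X.filter fun x => f x / m = i).card ≤ (Finset.Ico (i * m) (i * m + m)).card := by
    refine Finset.card_le_card_of_injOn f ?_ ?_
    · intro x hx
      rw [Finset.mem_coe, Finset.mem_filter] at hx
      rw [Finset.mem_coe, Finset.mem_Ico]
      have h2 := Nat.div_add_mod (f x) m
      have h3 := Nat.mod_lt (f x) (by omega : 0 < m)
      rw [hx.2] at h2
      have h4 : m * i = i * m := Nat.mul_comm m i
      omega
    · intro x hx y hy hxy
      rw [Finset.mem_coe, Finset.mem_filter] at hx hy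
      exact hf hx.1 hy.1 hxy
  rw [Nat.card_Ico] at h1
  omega

/-- Cut `X` into `X.card / m + 1` blocks of size at most `m`, and `Y` similarly; every pair of
blocks has at most `z m t` ones. -/
theorem block {n m t : ℕ} (hm : 1 ≤ m) {X Y : Finset (Fin n)} {S : Finset (Fin n × Fin n)}
    (hS : S ⊆ X ×ˢ Y) (h : Free t S) :
    S.card * m ^ 2 ≤ z m t * (m + X.card) * (m + Y.card) := by
  classical
  obtain ⟨f, hf, hfl⟩ := blk_enum X
  obtain ⟨f', hf', hfl'⟩ := blk_enum Y
  have h1 : S.card = ∑ c ∈ Finset.range (X.card / m + 1) ×ˢ Finset.range (Y.card / m + 1),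
      (S.filter fun p => (f p.1 / m, f' p.2 / m) = c).card := by
    refine Finset.card_eq_sum_card_fiberwise ?_
    intro p hp
    have hp' := Finset.mem_product.1 (hS (Finset.mem_coe.1 hp))
    rw [Finset.mem_coe, Finset.mem_product, Finset.mem_range, Finset.mem_range]
    have h2 := Nat.div_le_div_right (c := m) (hfl _ hp'.1).le
    have h3 := Nat.div_le_div_right (c := m) (hfl' _ hp'.2).le
    exact ⟨Nat.lt_succ_of_le h2, Nat.lt_succ_of_le h3⟩
  have h2 : S.card ≤ (X.card / m + 1) * (Y.card / m + 1) * z m t := by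
    rw [h1]
    refine (Finset.sum_le_card_nsmul _ _ (z m t) ?_).trans ?_
    · intro c _
      refine blk_small hm (X := X.filter fun x => f x / m = c.1)
        (Y := Y.filter fun y => f' y / m = c.2) ?_ (blk_le hm hf _) (blk_le hm hf' _) ?_
      · intro p hp
        rw [Finset.mem_filter] at hp
        have hp' := Finset.mem_product.1 (hS hp.1)
        have h3 := Prod.ext_iff.1 hp.2
        rw [Finset.mem_product, Finset.mem_filter, Finset.mem_filter]
        exact ⟨⟨hp'.1, h3.1⟩, ⟨hp'.2, h3.2⟩⟩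
      · intro A B hA hB hAB
        exact h A B hA hB (hAB.trans (Finset.filter_subset _ _))
    · rw [Finset.card_product, Finset.card_range, Finset.card_range, smul_eq_mul]
  have h3 : (X.card / m + 1) * m ≤ m + X.card := by
    have := Nat.div_mul_le_self X.card m
    rw [add_mul, one_mul]
    omega
  have h4 : (Y.card / m + 1) * m ≤ m + Y.card := by
    have := Nat.div_mul_le_self Y.card m
    rw [add_mul, one_mul]
    omega
  calc S.card * m ^ 2 ≤ ((X.card / m + 1) * (Y.card / m + 1) * z m t) * m ^ 2 :=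
        Nat.mul_le_mul_right _ h2
    _ = z m t * ((X.card / m + 1) * m) * ((Y.card / m + 1) * m) := by ring
    _ ≤ z m t * (m + X.card) * (m + Y.card) :=
        Nat.mul_le_mul (Nat.mul_le_mul_left _ h3) h4

end Zar93
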