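import Pool.Agent.Lib.MP_2541dc_coB.Defs

/-! # Leaf B: the number of four-cycles -/

set_option autoImplicit false

namespace Zar93

/-- The indicator of `S`. -/
private def C4ind {n : ℕ} (S : Finset (Fin n × Fin n)) (a b : Fin n) : ℕ :=
  if (a, b) ∈ S then 1 else 0

private theorem C4card {n : ℕ} (S : Finset (Fin n × Fin n)) :
    S.card = ∑ b : Fin n, ∑ a : Fin n, C4ind S a b := by
  rw [← Fintype.sum_prod_type_right' (f := fun a b => C4ind S a b)]
  unfold C4ind
  rw [Finset.card_eq_sum_ones, ← Finset.sum_filter]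
  congr 1
  ext p
  simp

private theorem C4count {n : ℕ} (S : Finset (Fin n × Fin n)) :
    c4 S = ∑ a : Fin n, ∑ b : Fin n, ∑ a' : Fin n, ∑ b' : Fin n,
      C4ind S a b * C4ind S a' b * (C4ind S a b' * C4ind S a' b') := by
  have h1 : c4 S = ∑ p : Fin n × Fin n, ∑ q : Fin n × Fin n,
      C4ind S p.1 p.2 * C4ind S q.1 p.2 * (C4ind S p.1 q.2 * C4ind S q.1 q.2) := by
    unfold c4
    rw [← Finset.sum_subset (Finset.subset_univ S)]
    · apply Finset.sum_congr rfl
      intro p hp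
      rw [Finset.card_filter, ← Finset.sum_subset (Finset.subset_univ S)]
      · apply Finset.sum_congr rfl
        intro q hq
        obtain ⟨a, b⟩ := p
        obtain ⟨a', b'⟩ := q
        simp only [C4ind, hp, hq, if_true]
        by_cases h3 : (a', b) ∈ S <;> by_cases h4 : (a, b') ∈ S <;> simp [h3, h4]
      · intro q _ hq
        obtain ⟨a, b⟩ := p
        obtain ⟨a', b'⟩ := q
        simp [C4ind, hq]
    · intro p _ hp
      obtain ⟨a, b⟩ := p
      apply Finset.sum_eq_zero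
      intro q _
      simp [C4ind, hp]
  rw [h1, Fintype.sum_prod_type]
  apply Finset.sum_congr rfl
  intro a _
  apply Finset.sum_congr rfl
  intro b _
  rw [Fintype.sum_prod_type]

/-- Two applications of the Cauchy-Schwarz inequality. -/
theorem card_pow_le {n : ℕ} (S : Finset (Fin n × Fin n)) : S.card ^ 4 ≤ n ^ 4 * c4 S := by
  have h1 : S.card ^ 2 ≤ n * ∑ b : Fin n, (∑ a : Fin n, C4ind S a b) ^ 2 := by
    rw [C4card S]
    have h := sq_sum_le_card_mul_sum_sq (s := (Finset.univ : Finset (Fin n)))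
      (f := fun b => ∑ a : Fin n, C4ind S a b)
    simpa using h
  have h2 : ∑ b : Fin n, (∑ a : Fin n, C4ind S a b) ^ 2
      = ∑ p : Fin n × Fin n, ∑ b : Fin n, C4ind S p.1 b * C4ind S p.2 b := by
    rw [Finset.sum_comm]
    apply Finset.sum_congr rfl
    intro b _
    rw [Fintype.sum_prod_type, sq, Finset.sum_mul_sum]
  have h3 : (∑ p : Fin n × Fin n, ∑ b : Fin n, C4ind S p.1 b * C4ind S p.2 b) ^ 2
      ≤ n ^ 2 * ∑ p : Fin n × Fin n, (∑ b : Fin n, C4ind S p.1 b * C4ind S p.2 b) ^ 2 := by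
    have h := sq_sum_le_card_mul_sum_sq (s := (Finset.univ : Finset (Fin n × Fin n)))
      (f := fun p => ∑ b : Fin n, C4ind S p.1 b * C4ind S p.2 b)
    have hc : ((Finset.univ : Finset (Fin n × Fin n)).card) = n ^ 2 := by
      simp [sq]
    rw [hc] at h
    simpa using h
  have h4 : ∑ p : Fin n × Fin n, (∑ b : Fin n, C4ind S p.1 b * C4ind S p.2 b) ^ 2 = c4 S := by
    rw [C4count, Fintype.sum_prod_type]
    apply Finset.sum_congr rfl
    intro a _
    rw [Finset.sum_comm (s := (Finset.univ : Finset (Fin n)))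
      (f := fun b a' => ∑ b' : Fin n,
        C4ind S a b * C4ind S a' b * (C4ind S a b' * C4ind S a' b'))]
    apply Finset.sum_congr rfl
    intro a' _
    rw [sq, Finset.sum_mul_sum]
  rw [h4] at h3
  rw [h2] at h1
  calc S.card ^ 4 = (S.card ^ 2) ^ 2 := by ring
    _ ≤ (n * ∑ p : Fin n × Fin n, ∑ b : Fin n, C4ind S p.1 b * C4ind S p.2 b) ^ 2 :=
        Nat.pow_le_pow_left h1 2
    _ = n ^ 2 * (∑ p : Fin n × Fin n, ∑ b : Fin n, C4ind S p.1 b * C4ind S p.2 b) ^ 2 := by ring
    _ ≤ n ^ 2 * (n ^ 2 * c4 S) := Nat.mul_le_mul_left _ h3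
    _ = n ^ 4 * c4 S := by ring

end Zar93
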