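import Mathlib

/-! # MP_2541dc_co (helper93): the symmetric Zarankiewicz function: definitions -/

set_option autoImplicit false

namespace Zar93

/-- The matrix whose entries `1` are the members of `S` has no `t × t` submatrix of ones. -/
def Free {n : ℕ} (t : ℕ) (S : Finset (Fin n × Fin n)) : Prop :=
  ∀ A B : Finset (Fin n), A.card = t → B.card = t → ¬ (A ×ˢ B ⊆ S)

/-- The symmetric Zarankiewicz function `z(n; t)`. -/
noncomputable def z (n t : ℕ) : ℕ :=
  sSup {m : ℕ | ∃ S : Finset (Fin n × Fin n), S.card = m ∧ Free t S}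

/-- The ratio `z(n; t) / n ^ (2 - 1/t)`. -/
noncomputable def ratio (t n : ℕ) : ℝ := (z n t : ℝ) / (n : ℝ) ^ ((2 : ℝ) - 1 / (t : ℝ))

/-- The weak form of the conjecture for `t`. -/
def Weak (t : ℕ) : Prop :=
  ∃ C : ℝ, 0 < C ∧ ∀ n : ℕ, 1 ≤ n → C * (n : ℝ) ^ ((2 : ℝ) - 1 / (t : ℝ)) < z n t

/-- The number of ones in row `a`. -/
def rd {n : ℕ} (S : Finset (Fin n × Fin n)) (a : Fin n) : ℕ := (S.filter fun p => p.1 = a).card

/-- The number of ones in column `b`. -/
def cd {n : ℕ} (S : Finset (Fin n × Fin n)) (b : Fin n) : ℕ := (S.filter fun p => p.2 = b).card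

/-- The number of (possibly degenerate) four-cycles. -/
def c4 {n : ℕ} (S : Finset (Fin n × Fin n)) : ℕ :=
  ∑ p ∈ S, (S.filter fun q => (q.1, p.2) ∈ S ∧ (p.1, q.2) ∈ S).card

end Zar93
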