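import Pool.Agent.Lib.MP_2541dc_coB.Moment

/-! # Leaf D: lower moments, rows and columns -/

set_option autoImplicit false

namespace Zar93

private theorem pow_mul_le (d K s j : ℕ) (hj : j ≤ s) : d ^ j * K ^ (s - j) ≤ K ^ s + d ^ s := by
  rcases le_total d K with h | h
  · calc d ^ j * K ^ (s - j) ≤ K ^ j * K ^ (s - j) :=
          Nat.mul_le_mul_right _ (Nat.pow_le_pow_left h j)
      _ = K ^ s := by rw [← pow_add, Nat.add_sub_cancel' hj]
      _ ≤ K ^ s + d ^ s := Nat.le_add_right _ _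
  · calc d ^ j * K ^ (s - j) ≤ d ^ j * d ^ (s - j) :=
          Nat.mul_le_mul_left _ (Nat.pow_le_pow_left h (s - j))
      _ = d ^ s := by rw [← pow_add, Nat.add_sub_cancel' hj]
      _ ≤ K ^ s + d ^ s := Nat.le_add_left _ _

/-- From `moment` with `K = k ^ (s - 1)`: `d ^ j * K ^ (s - j) ≤ K ^ s + d ^ s`. -/
theorem momentR (s : ℕ) (hs : 1 ≤ s) : ∃ C : ℕ, ∀ (j k : ℕ), j ≤ s → 1 ≤ k →
    ∀ S : Finset (Fin (k ^ s) × Fin (k ^ s)), Free s S →
      ∑ a, rd S a ^ j ≤ C * k ^ (s + j * (s - 1)) := by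
  obtain ⟨C, hC⟩ := moment s hs
  refine ⟨1 + C, fun j k hj hk S hS => ?_⟩
  have h1 := hC (k ^ s) S hS
  have hK : 0 < (k ^ (s - 1)) ^ (s - j) := pow_pos (pow_pos hk _) _
  refine Nat.le_of_mul_le_mul_left ?_ hK
  have e1 : k ^ s * (k ^ (s - 1)) ^ s = (k ^ s) ^ s := by
    rw [← mul_pow_sub_one (by omega : s ≠ 0) (k ^ s), ← pow_mul, ← pow_mul]
    congr 2
    obtain ⟨t, rfl⟩ : ∃ t, s = t + 1 := ⟨s - 1, by omega⟩
    simp only [Nat.add_sub_cancel]
    ring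
  have e2 : (k ^ (s - 1)) ^ (s - j) * k ^ (s + j * (s - 1)) = (k ^ s) ^ s := by
    rw [← pow_mul, ← pow_add, ← pow_mul]
    congr 1
    obtain ⟨t, rfl⟩ : ∃ t, s = t + 1 := ⟨s - 1, by omega⟩
    obtain ⟨i, hi⟩ : ∃ i, t + 1 = j + i := ⟨t + 1 - j, by omega⟩
    have h3 : t + 1 - j = i := by omega
    rw [h3]
    simp only [Nat.add_sub_cancel]
    calc t * i + (t + 1 + j * t) = t * (j + i) + (t + 1) := by ring
      _ = t * (t + 1) + (t + 1) := by rw [hi]
      _ = (t + 1) * (t + 1) := by ring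
  calc (k ^ (s - 1)) ^ (s - j) * ∑ a, rd S a ^ j
      = ∑ a, rd S a ^ j * (k ^ (s - 1)) ^ (s - j) := by
        rw [Finset.mul_sum]
        exact Finset.sum_congr rfl fun a _ => mul_comm _ _
    _ ≤ ∑ a, ((k ^ (s - 1)) ^ s + rd S a ^ s) :=
        Finset.sum_le_sum fun a _ => pow_mul_le _ _ _ _ hj
    _ = k ^ s * (k ^ (s - 1)) ^ s + ∑ a, rd S a ^ s := by
        rw [Finset.sum_add_distrib]
        simp
    _ ≤ (k ^ s) ^ s + C * (k ^ s) ^ s := by
        rw [e1]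
        exact Nat.add_le_add_left h1 _
    _ = (k ^ (s - 1)) ^ (s - j) * ((1 + C) * k ^ (s + j * (s - 1))) := by
        rw [← e2]
        ring

/-- The same for the columns (exchange the coordinates). -/
theorem momentC (s : ℕ) (hs : 1 ≤ s) : ∃ C : ℕ, ∀ (j k : ℕ), j ≤ s → 1 ≤ k →
    ∀ S : Finset (Fin (k ^ s) × Fin (k ^ s)), Free s S →
      ∑ b, cd S b ^ j ≤ C * k ^ (s + j * (s - 1)) := by
  obtain ⟨C, hC⟩ := momentR s hs
  refine ⟨C, fun j k hj hk S hS => ?_⟩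
  have hT : Free s (S.map (Equiv.prodComm _ _).toEmbedding) := by
    intro A B hA hB hsub
    refine hS B A hB hA ?_
    rintro ⟨x, y⟩ hxy
    rw [Finset.mem_product] at hxy
    have h1 : (y, x) ∈ S.map (Equiv.prodComm _ _).toEmbedding :=
      hsub (Finset.mem_product.2 ⟨hxy.2, hxy.1⟩)
    rw [Finset.mem_map] at h1
    obtain ⟨⟨u, v⟩, huv, he⟩ := h1
    simp only [Equiv.coe_toEmbedding, Equiv.prodComm_apply, Prod.swap_prod_mk, Prod.mk.injEq] at he
    rw [← he.1, ← he.2]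
    exact huv
  have h2 := hC j k hj hk _ hT
  refine le_of_eq_of_le ?_ h2
  refine Finset.sum_congr rfl fun b _ => ?_
  congr 1
  unfold rd cd
  rw [Finset.filter_map, Finset.card_map]
  congr 1

end Zar93
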