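import Pool.Agent.Lib.MP_2541dc_coB.Defs

/-! # Leaf F: the neighbourhoods of an edge -/

set_option autoImplicit false

namespace Zar93

theorem nbr_free {n t : ℕ} {S : Finset (Fin n × Fin n)} (h : Free (t + 1) S) {u v : Fin n}
    (huv : (u, v) ∈ S) :
    Free t (S.filter fun q => ((q.1, v) ∈ S ∧ (u, q.2) ∈ S) ∧ q.1 ≠ u ∧ q.2 ≠ v) := by
  intro A B hA hB hsub
  rcases Nat.eq_zero_or_pos t with rfl | ht
  · refine h {u} {v} (by simp) (by simp) ?_
    intro q hq
    simp only [Finset.mem_product, Finset.mem_singleton] at hq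
    have : q = (u, v) := Prod.ext hq.1 hq.2
    rw [this]
    exact huv
  · obtain ⟨a0, ha0⟩ : A.Nonempty := Finset.card_pos.1 (by omega)
    obtain ⟨b0, hb0⟩ : B.Nonempty := Finset.card_pos.1 (by omega)
    have key : ∀ a ∈ A, ∀ b ∈ B, (a, b) ∈ S ∧ (a, v) ∈ S ∧ (u, b) ∈ S ∧ a ≠ u ∧ b ≠ v := by
      intro a ha b hb
      have := hsub (Finset.mk_mem_product ha hb)
      simp only [Finset.mem_filter] at this
      tauto
    have hu : u ∉ A := fun hu => (key u hu b0 hb0).2.2.2.1 rfl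
    have hv : v ∉ B := fun hv => (key a0 ha0 v hv).2.2.2.2 rfl
    refine h (insert u A) (insert v B) (by rw [Finset.card_insert_of_notMem hu, hA])
      (by rw [Finset.card_insert_of_notMem hv, hB]) ?_
    rintro ⟨a, b⟩ hq
    simp only [Finset.mem_product, Finset.mem_insert] at hq
    rcases hq with ⟨rfl | ha, rfl | hb⟩
    · exact huv
    · exact (key a0 ha0 b hb).2.2.1
    · exact (key a ha b0 hb0).2.1
    · exact (key a ha b hb).1

theorem nbr_card {n : ℕ} (S : Finset (Fin n × Fin n)) (u v : Fin n) :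
    (S.filter fun q => (q.1, v) ∈ S ∧ (u, q.2) ∈ S).card ≤
      (S.filter fun q => ((q.1, v) ∈ S ∧ (u, q.2) ∈ S) ∧ q.1 ≠ u ∧ q.2 ≠ v).card +
        rd S u + cd S v := by
  unfold rd cd
  have : (S.filter fun q => (q.1, v) ∈ S ∧ (u, q.2) ∈ S) ⊆
      ((S.filter fun q => ((q.1, v) ∈ S ∧ (u, q.2) ∈ S) ∧ q.1 ≠ u ∧ q.2 ≠ v) ∪
        (S.filter fun p => p.1 = u)) ∪ (S.filter fun p => p.2 = v) := by
    intro q hq
    simp only [Finset.mem_filter, Finset.mem_union] at hq ⊢
    tauto
  refine (Finset.card_le_card this).trans ((Finset.card_union_le _ _).trans ?_)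
  gcongr
  exact Finset.card_union_le _ _

theorem nbr_sub {n : ℕ} (S : Finset (Fin n × Fin n)) (u v : Fin n) :
    ∃ X Y : Finset (Fin n), X.card = cd S v ∧ Y.card = rd S u ∧
      (S.filter fun q => ((q.1, v) ∈ S ∧ (u, q.2) ∈ S) ∧ q.1 ≠ u ∧ q.2 ≠ v) ⊆ X ×ˢ Y := by
  refine ⟨Finset.univ.filter fun a => (a, v) ∈ S, Finset.univ.filter fun b => (u, b) ∈ S,
    ?_, ?_, ?_⟩
  · unfold cd
    refine Finset.card_bij (fun a _ => (a, v)) ?_ ?_ ?_
    · intro a ha
      simpa using ha
    · intro a _ b _ hab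
      simpa using hab
    · rintro ⟨a, b⟩ hab
      simp only [Finset.mem_filter] at hab
      obtain ⟨h1, rfl⟩ := hab
      exact ⟨a, by simpa using h1, rfl⟩
  · unfold rd
    refine Finset.card_bij (fun b _ => (u, b)) ?_ ?_ ?_
    · intro a ha
      simpa using ha
    · intro a _ b _ hab
      simpa using hab
    · rintro ⟨a, b⟩ hab
      simp only [Finset.mem_filter] at hab
      obtain ⟨h1, rfl⟩ := hab
      exact ⟨b, by simpa using h1, rfl⟩
  · intro q hq
    simp only [Finset.mem_filter] at hq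
    simp only [Finset.mem_product, Finset.mem_filter, Finset.mem_univ, true_and]
    exact hq.2.1

end Zar93
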