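import Pool.Agent.Lib.MP_2541dc_coB.Defs

/-! # Leaf G: sums over the ones -/

set_option autoImplicit false

namespace Zar93

theorem sum_rd {n : ℕ} (S : Finset (Fin n × Fin n)) (i : ℕ) :
    ∑ p ∈ S, rd S p.1 ^ i = ∑ a, rd S a ^ (i + 1) := by
  rw [← Finset.sum_fiberwise S (fun p => p.1) (fun p => rd S p.1 ^ i)]
  refine Finset.sum_congr rfl fun a _ => ?_
  rw [Finset.sum_congr rfl fun p hp => by rw [(Finset.mem_filter.1 hp).2], Finset.sum_const,
    smul_eq_mul, pow_succ, mul_comm]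
  rfl

theorem sum_cd {n : ℕ} (S : Finset (Fin n × Fin n)) (i : ℕ) :
    ∑ p ∈ S, cd S p.2 ^ i = ∑ b, cd S b ^ (i + 1) := by
  rw [← Finset.sum_fiberwise S (fun p => p.2) (fun p => cd S p.2 ^ i)]
  refine Finset.sum_congr rfl fun b _ => ?_
  rw [Finset.sum_congr rfl fun p hp => by rw [(Finset.mem_filter.1 hp).2], Finset.sum_const,
    smul_eq_mul, pow_succ, mul_comm]
  rfl

end Zar93
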