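import Pool.Agent.Lib.MP_2541dc_coB.Basic
import Pool.Agent.Lib.MP_2541dc_coB.C4
import Pool.Agent.Lib.MP_2541dc_coB.MomentJ
import Pool.Agent.Lib.MP_2541dc_coB.Block
import Pool.Agent.Lib.MP_2541dc_coB.Nbr
import Pool.Agent.Lib.MP_2541dc_coB.Sums

/-! # The main inequality -/

set_option autoImplicit false

namespace Zar93

private theorem iq_sq (m a b : ℕ) : (m + a) * (m + b) ≤ 2 * m ^ 2 + a ^ 2 + b ^ 2 := by
  zify
  nlinarith [sq_nonneg ((m : ℤ) - a), sq_nonneg ((m : ℤ) - b), sq_nonneg ((a : ℤ) - b)]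

private theorem iq_point {x F r c m Z : ℕ} (h1 : x ≤ F + r + c)
    (h2 : F * m ^ 2 ≤ Z * (m + c) * (m + r)) :
    x * m ^ 2 ≤ Z * (2 * m ^ 2 + c ^ 2 + r ^ 2) + m ^ 2 * (r + c) := by
  have h3 : Z * (m + c) * (m + r) ≤ Z * (2 * m ^ 2 + c ^ 2 + r ^ 2) := by
    rw [mul_assoc]
    exact Nat.mul_le_mul_left _ (iq_sq m c r)
  calc x * m ^ 2 ≤ (F + r + c) * m ^ 2 := Nat.mul_le_mul_right _ h1
    _ = F * m ^ 2 + m ^ 2 * (r + c) := by ring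
    _ ≤ Z * (2 * m ^ 2 + c ^ 2 + r ^ 2) + m ^ 2 * (r + c) :=
      Nat.add_le_add_right (h2.trans h3) _

private theorem iq_sum {Q N r1 c1 r2 c2 m Z C P : ℕ}
    (h : Q * m ^ 2 ≤ Z * (2 * m ^ 2 * N + c2 + r2) + m ^ 2 * (r1 + c1))
    (hN : N ≤ C * P) (hr1 : r1 ≤ C * (P * m)) (hc1 : c1 ≤ C * (P * m))
    (hr2 : r2 ≤ C * (P * m ^ 2)) (hc2 : c2 ≤ C * (P * m ^ 2)) (hm : m ≤ Z) (hm0 : 1 ≤ m) :
    Q ≤ 6 * C * P * Z := by
  have h1 : 2 * m ^ 2 * N + c2 + r2 ≤ 4 * (C * (P * m ^ 2)) := by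
    have h2 : 2 * m ^ 2 * N ≤ 2 * m ^ 2 * (C * P) := Nat.mul_le_mul_left _ hN
    have e : 2 * m ^ 2 * (C * P) = 2 * (C * (P * m ^ 2)) := by ring
    omega
  have h2 : m ^ 2 * (r1 + c1) ≤ m ^ 2 * (2 * (C * (P * m))) := Nat.mul_le_mul_left _ (by omega)
  have h3 : m ^ 2 * (2 * (C * (P * m))) ≤ Z * (2 * (C * (P * m ^ 2))) := by
    calc m ^ 2 * (2 * (C * (P * m))) = m * (2 * (C * (P * m ^ 2))) := by ring
      _ ≤ Z * (2 * (C * (P * m ^ 2))) := Nat.mul_le_mul_right _ hm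
  have h4 : Q * m ^ 2 ≤ 6 * C * P * Z * m ^ 2 := by
    calc Q * m ^ 2 ≤ Z * (2 * m ^ 2 * N + c2 + r2) + m ^ 2 * (r1 + c1) := h
      _ ≤ Z * (4 * (C * (P * m ^ 2))) + Z * (2 * (C * (P * m ^ 2))) :=
        Nat.add_le_add (Nat.mul_le_mul_left _ h1) (h2.trans h3)
      _ = 6 * C * P * Z * m ^ 2 := by ring
  exact Nat.le_of_mul_le_mul_right h4 (by positivity)

theorem ineq {t : ℕ} (ht : 2 ≤ t) : ∃ C : ℕ, ∀ k : ℕ,
    z (k ^ (t + 1)) (t + 1) ^ 4 ≤ C * k ^ (6 * t + 5) * z (k ^ t) t := by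
  obtain ⟨C1, h1⟩ := momentR (t + 1) (by omega)
  obtain ⟨C2, h2⟩ := momentC (t + 1) (by omega)
  refine ⟨6 * (C1 + C2), fun k => ?_⟩
  rcases Nat.eq_zero_or_pos k with rfl | hk
  · obtain ⟨S, -, hS⟩ := exists_max (n := 0 ^ (t + 1)) (t := t + 1) (by omega)
    have h0 : S.card = 0 := by
      rw [Finset.card_eq_zero]
      refine Finset.eq_empty_of_forall_notMem fun p _ => ?_
      have h3 : (p.1 : ℕ) < 0 ^ (t + 1) := p.1.2
      have h4 : (0 : ℕ) ^ (t + 1) = 0 := zero_pow (by omega)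
      exact absurd (h3.trans_le h4.le) (Nat.not_lt_zero _)
    rw [← hS, h0]
    exact (by norm_num : (0 : ℕ) ^ 4 = 0).le.trans (Nat.zero_le _)
  obtain ⟨S, hF, hS⟩ := exists_max (n := k ^ (t + 1)) (t := t + 1) (by omega)
  have hm1 : 1 ≤ k ^ t := Nat.one_le_pow _ _ hk
  have hR : ∀ j, j ≤ t + 1 → ∑ a, rd S a ^ j ≤ (C1 + C2) * k ^ (t + 1 + j * t) := fun j hj =>
    (h1 j k hj hk S hF).trans (Nat.mul_le_mul_right _ (Nat.le_add_right _ _))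
  have hC : ∀ j, j ≤ t + 1 → ∑ b, cd S b ^ j ≤ (C1 + C2) * k ^ (t + 1 + j * t) := fun j hj =>
    (h2 j k hj hk S hF).trans (Nat.mul_le_mul_right _ (Nat.le_add_left _ _))
  have e1 : k ^ (t + 1 + 1 * t) = k ^ (2 * t + 1) := by congr 1; ring
  have e2 : k ^ (t + 1 + 2 * t) = k ^ (2 * t + 1) * k ^ t := by rw [← pow_add]; congr 1; ring
  have e3 : k ^ (t + 1 + 3 * t) = k ^ (2 * t + 1) * (k ^ t) ^ 2 := by
    rw [← pow_mul, ← pow_add]; congr 1; ring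
  have hN : S.card ≤ (C1 + C2) * k ^ (2 * t + 1) := by
    have h3 := sum_rd S 0
    have h4 := hR 1 (by omega)
    rw [e1] at h4
    simp only [pow_zero, Finset.sum_const, smul_eq_mul, mul_one, zero_add] at h3
    rw [h3]
    exact h4
  have hr1 : ∑ p ∈ S, rd S p.1 ≤ (C1 + C2) * (k ^ (2 * t + 1) * k ^ t) := by
    have h3 := sum_rd S 1
    have h4 := hR 2 (by omega)
    rw [e2] at h4
    simp only [pow_one] at h3
    rw [h3]
    exact h4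
  have hc1 : ∑ p ∈ S, cd S p.2 ≤ (C1 + C2) * (k ^ (2 * t + 1) * k ^ t) := by
    have h3 := sum_cd S 1
    have h4 := hC 2 (by omega)
    rw [e2] at h4
    simp only [pow_one] at h3
    rw [h3]
    exact h4
  have hr2 : ∑ p ∈ S, rd S p.1 ^ 2 ≤ (C1 + C2) * (k ^ (2 * t + 1) * (k ^ t) ^ 2) := by
    have h4 := hR 3 (by omega)
    rw [e3] at h4
    rw [sum_rd S 2]
    exact h4
  have hc2 : ∑ p ∈ S, cd S p.2 ^ 2 ≤ (C1 + C2) * (k ^ (2 * t + 1) * (k ^ t) ^ 2) := by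
    have h4 := hC 3 (by omega)
    rw [e3] at h4
    rw [sum_cd S 2]
    exact h4
  have hp : ∀ p ∈ S, (S.filter fun q => (q.1, p.2) ∈ S ∧ (p.1, q.2) ∈ S).card * (k ^ t) ^ 2 ≤
      z (k ^ t) t * (2 * (k ^ t) ^ 2 + cd S p.2 ^ 2 + rd S p.1 ^ 2) +
        (k ^ t) ^ 2 * (rd S p.1 + cd S p.2) := by
    intro p hp
    obtain ⟨X, Y, hX, hY, hXY⟩ := nbr_sub S p.1 p.2
    have hb := block hm1 hXY (nbr_free hF hp)
    rw [hX, hY] at hb
    exact iq_point (nbr_card S p.1 p.2) hb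
  have hc4 : c4 S ≤ 6 * (C1 + C2) * k ^ (2 * t + 1) * z (k ^ t) t := by
    refine iq_sum (r1 := ∑ p ∈ S, rd S p.1) (c1 := ∑ p ∈ S, cd S p.2)
      (r2 := ∑ p ∈ S, rd S p.1 ^ 2) (c2 := ∑ p ∈ S, cd S p.2 ^ 2) ?_ hN hr1 hc1 hr2 hc2
      (le_z_self ht) hm1
    unfold c4
    rw [Finset.sum_mul]
    refine (Finset.sum_le_sum hp).trans (le_of_eq ?_)
    rw [Finset.sum_add_distrib, ← Finset.mul_sum, ← Finset.mul_sum, Finset.sum_add_distrib,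
      Finset.sum_add_distrib, Finset.sum_add_distrib, Finset.sum_const, smul_eq_mul]
    ring
  rw [← hS]
  calc S.card ^ 4 ≤ (k ^ (t + 1)) ^ 4 * c4 S := card_pow_le S
    _ ≤ (k ^ (t + 1)) ^ 4 * (6 * (C1 + C2) * k ^ (2 * t + 1) * z (k ^ t) t) :=
      Nat.mul_le_mul_left _ hc4
    _ = 6 * (C1 + C2) * k ^ (6 * t + 5) * z (k ^ t) t := by
      have e4 : k ^ (6 * t + 5) = (k ^ (t + 1)) ^ 4 * k ^ (2 * t + 1) := by
        rw [← pow_mul, ← pow_add]; congr 1; ring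
      rw [e4]
      ring

end Zar93
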