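import Pool.Agent.Lib.MP_2541dc_coB.Basic

/-! # Leaf H: the lower bound -/

set_option autoImplicit false

namespace Zar93

open Filter

private theorem wd_pow (x : ℝ) (hx : 0 ≤ x) (t : ℕ) (ht : 1 ≤ t) :
    (x ^ t) ^ ((2 : ℝ) - 1 / (t : ℝ)) = x ^ (2 * t - 1) := by
  have ht0 : (t : ℝ) ≠ 0 := by
    have : t ≠ 0 := by omega
    exact_mod_cast this
  rw [← Real.rpow_natCast x t, ← Real.rpow_mul hx, ← Real.rpow_natCast x (2 * t - 1)]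
  congr 1
  rw [Nat.cast_sub (by omega)]
  push_cast
  field_simp

private theorem wd_root (t n : ℕ) (ht : 1 ≤ t) (hn : 1 ≤ n) :
    ∃ k : ℕ, 1 ≤ k ∧ k ^ t ≤ n ∧ n < (k + 1) ^ t := by
  set k := Nat.findGreatest (fun k => k ^ t ≤ n) n with hk
  have h1 : (1 : ℕ) ^ t ≤ n := by rw [one_pow]; exact hn
  have h2 : k ^ t ≤ n := Nat.findGreatest_spec (P := fun k => k ^ t ≤ n) hn h1
  have h3 : 1 ≤ k := Nat.le_findGreatest hn h1
  have h4 : k ≤ n := Nat.findGreatest_le n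
  refine ⟨k, h3, h2, ?_⟩
  by_contra hcon
  push Not at hcon
  have h5 : k + 1 ≤ n := by
    have : k + 1 ≤ (k + 1) ^ t := Nat.le_self_pow (by omega) _
    omega
  exact Nat.findGreatest_is_greatest (P := fun k => k ^ t ≤ n) (Nat.lt_succ_self k) h5 hcon

/-- Take `k` with `k ^ t ≤ n < (k + 1) ^ t`. -/
theorem weak_down {t : ℕ} (ht : 2 ≤ t) (hi : ∃ C : ℕ, ∀ k : ℕ,
    z (k ^ (t + 1)) (t + 1) ^ 4 ≤ C * k ^ (6 * t + 5) * z (k ^ t) t)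
    (h : Weak (t + 1)) : Weak t := by
  obtain ⟨C, hC⟩ := hi
  obtain ⟨C0, hC0, h0⟩ := h
  have key : ∀ k : ℕ, 1 ≤ k → C0 ^ 4 * (k : ℝ) ^ (2 * t - 1) ≤ C * z (k ^ t) t := by
    intro k hk
    have hkr : (0 : ℝ) < k := by exact_mod_cast hk
    have h1 := h0 (k ^ (t + 1)) (Nat.one_le_pow _ _ hk)
    have h2 : ((k ^ (t + 1) : ℕ) : ℝ) ^ ((2 : ℝ) - 1 / ((t + 1 : ℕ) : ℝ))
        = (k : ℝ) ^ (2 * t + 1) := by
      rw [Nat.cast_pow, wd_pow (k : ℝ) hkr.le (t + 1) (by omega)]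
      congr 1
    rw [h2] at h1
    have h3 : (C0 * (k : ℝ) ^ (2 * t + 1)) ^ 4 ≤ ((z (k ^ (t + 1)) (t + 1) : ℕ) : ℝ) ^ 4 :=
      pow_le_pow_left₀ (by positivity) h1.le 4
    have h4 : ((z (k ^ (t + 1)) (t + 1) : ℕ) : ℝ) ^ 4
        ≤ C * (k : ℝ) ^ (6 * t + 5) * z (k ^ t) t := by
      exact_mod_cast hC k
    have h5 : (C0 * (k : ℝ) ^ (2 * t + 1)) ^ 4
        = (k : ℝ) ^ (6 * t + 5) * (C0 ^ 4 * (k : ℝ) ^ (2 * t - 1)) := by
      rw [mul_pow, ← pow_mul]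
      have : (2 * t + 1) * 4 = (6 * t + 5) + (2 * t - 1) := by omega
      rw [this, pow_add]
      ring
    have h6 : (k : ℝ) ^ (6 * t + 5) * (C0 ^ 4 * (k : ℝ) ^ (2 * t - 1))
        ≤ (k : ℝ) ^ (6 * t + 5) * (C * z (k ^ t) t) := by
      rw [← h5]
      refine (h3.trans h4).trans (le_of_eq ?_)
      ring
    exact le_of_mul_le_mul_left h6 (by positivity)
  have hCpos : (0 : ℝ) < C := by
    have h1 := key 1 le_rfl
    rw [Nat.cast_one, one_pow, mul_one] at h1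
    have h2 : 0 < C0 ^ 4 := by positivity
    by_contra hcon
    have h3 : (C : ℝ) = 0 := le_antisymm (not_lt.1 hcon) (Nat.cast_nonneg C)
    rw [h3, zero_mul] at h1
    linarith
  refine ⟨C0 ^ 4 / C / 2 ^ (2 * t), by positivity, ?_⟩
  intro n hn
  obtain ⟨k, hk, hk1, hk2⟩ := wd_root t n (by omega) hn
  have hkr : (0 : ℝ) < k := by exact_mod_cast hk
  have h1 : ((z (k ^ t) t : ℕ) : ℝ) ≤ z n t := by exact_mod_cast z_mono (by omega) hk1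
  have h2 := key k hk
  have h3 : C0 ^ 4 / C * (k : ℝ) ^ (2 * t - 1) ≤ z (k ^ t) t := by
    rw [div_mul_eq_mul_div, div_le_iff₀ hCpos]
    linarith
  have h4 : (n : ℝ) ≤ (2 * (k : ℝ)) ^ t := by
    have h5 : n ≤ (2 * k) ^ t := hk2.le.trans (Nat.pow_le_pow_left (by omega) t)
    exact_mod_cast h5
  have hexp : (0 : ℝ) ≤ (2 : ℝ) - 1 / (t : ℝ) := by
    have h5 : (1 : ℝ) / t ≤ 1 := by
      rw [div_le_one (by exact_mod_cast (by omega : 0 < t))]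
      exact_mod_cast (by omega : 1 ≤ t)
    linarith
  have h6 : (n : ℝ) ^ ((2 : ℝ) - 1 / (t : ℝ)) ≤ (2 * (k : ℝ)) ^ (2 * t - 1) := by
    rw [← wd_pow (2 * (k : ℝ)) (by positivity) t (by omega)]
    exact Real.rpow_le_rpow (Nat.cast_nonneg n) h4 hexp
  have h7 : (2 * (k : ℝ)) ^ (2 * t - 1) = 2 ^ (2 * t - 1) * (k : ℝ) ^ (2 * t - 1) := mul_pow _ _ _
  have h8 : (2 : ℝ) ^ (2 * t) = 2 ^ (2 * t - 1) * 2 := by
    rw [← pow_succ]
    congr 1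
    omega
  have hc : 0 < C0 ^ 4 / (C : ℝ) := by positivity
  have hkp : 0 < (k : ℝ) ^ (2 * t - 1) := by positivity
  have h2p : (0 : ℝ) < 2 ^ (2 * t - 1) := by positivity
  calc C0 ^ 4 / C / 2 ^ (2 * t) * (n : ℝ) ^ ((2 : ℝ) - 1 / (t : ℝ))
      ≤ C0 ^ 4 / C / 2 ^ (2 * t) * (2 ^ (2 * t - 1) * (k : ℝ) ^ (2 * t - 1)) := by
        rw [← h7]
        exact mul_le_mul_of_nonneg_left h6 (by positivity)
    _ = (C0 ^ 4 / C) * (k : ℝ) ^ (2 * t - 1) / 2 := by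
        rw [h8]
        field_simp
    _ < (C0 ^ 4 / C) * (k : ℝ) ^ (2 * t - 1) := half_lt_self (mul_pos hc hkp)
    _ ≤ z (k ^ t) t := h3
    _ ≤ z n t := h1

end Zar93
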