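import Pool.Agent.Lib.MP_2541dc_coB.Basic

/-! # Leaf I: the limit zero -/

set_option autoImplicit false

namespace Zar93

open Filter

private theorem pow_aux {x : ℝ} (hx : 0 ≤ x) {s : ℕ} (hs : 1 ≤ s) :
    (x ^ s) ^ ((2 : ℝ) - 1 / (s : ℝ)) = x ^ (2 * s - 1) := by
  have hs0 : (s : ℝ) ≠ 0 := by
    have : s ≠ 0 := by omega
    exact_mod_cast this
  have h1 : ((2 * s - 1 : ℕ) : ℝ) = (s : ℝ) * ((2 : ℝ) - 1 / (s : ℝ)) := by
    rw [Nat.cast_sub (by omega)]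
    push_cast
    field_simp
  rw [← Real.rpow_natCast x s, ← Real.rpow_mul hx, ← Real.rpow_natCast x (2 * s - 1), h1]

private theorem key {t n : ℕ} (ht : 2 ≤ t) {C : ℕ}
    (hC : ∀ k : ℕ, z (k ^ (t + 1)) (t + 1) ^ 4 ≤ C * k ^ (6 * t + 5) * z (k ^ t) t)
    (hn : 1 ≤ n) : ∃ K : ℕ, n < K ^ (t + 1) ∧
      ratio (t + 1) n ^ 4 ≤ 2 ^ (8 * t + 4) * C * ratio t (K ^ t) := by
  classical
  have hex : ∃ K : ℕ, n < K ^ (t + 1) :=
    ⟨n + 1, lt_of_lt_of_le (Nat.lt_succ_self n) (Nat.le_self_pow (by omega) _)⟩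
  obtain ⟨K, hK, hmin⟩ : ∃ K : ℕ, n < K ^ (t + 1) ∧ ∀ m < K, ¬ n < m ^ (t + 1) :=
    ⟨Nat.find hex, Nat.find_spec hex, fun m hm => Nat.find_min hex hm⟩
  have hK2 : 2 ≤ K := by
    by_contra hlt
    have h1 : K ≤ 1 := by omega
    have h2 : K ^ (t + 1) ≤ 1 ^ (t + 1) := Nat.pow_le_pow_left h1 _
    rw [one_pow] at h2
    omega
  obtain ⟨k, rfl⟩ : ∃ k, K = k + 1 := ⟨K - 1, by omega⟩
  have hk : k ^ (t + 1) ≤ n := by
    have := hmin k (Nat.lt_succ_self k)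
    omega
  refine ⟨k + 1, hK, ?_⟩
  have hk1 : 1 ≤ k := by omega
  set D : ℝ := (n : ℝ) ^ ((2 : ℝ) - 1 / ((t + 1 : ℕ) : ℝ)) with hDdef
  have hkpos : (0 : ℝ) < k := by exact_mod_cast hk1
  have hD : (k : ℝ) ^ (2 * t + 1) ≤ D := by
    have e : (k : ℝ) ^ (2 * t + 1) = ((k : ℝ) ^ (t + 1)) ^ ((2 : ℝ) - 1 / ((t + 1 : ℕ) : ℝ)) := by
      rw [pow_aux hkpos.le (by omega)]
      congr 1
    rw [e]
    apply Real.rpow_le_rpow (by positivity)
    · exact_mod_cast hk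
    · have h1 : (1 : ℝ) ≤ ((t + 1 : ℕ) : ℝ) := by
        have : 1 ≤ t + 1 := by omega
        exact_mod_cast this
      have h2 : 1 / ((t + 1 : ℕ) : ℝ) ≤ 1 := by
        rw [div_le_one (by linarith)]
        exact h1
      linarith
  have hDpos : 0 < D := lt_of_lt_of_le (by positivity) hD
  have hden : (((k + 1) ^ t : ℕ) : ℝ) ^ ((2 : ℝ) - 1 / (t : ℝ)) = ((k : ℝ) + 1) ^ (2 * t - 1) := by
    push_cast
    exact pow_aux (by positivity) (by omega)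
  have hr1 : ratio (t + 1) n = (z n (t + 1) : ℝ) / D := rfl
  have hr2 : ratio t ((k + 1) ^ t) = (z ((k + 1) ^ t) t : ℝ) / ((k : ℝ) + 1) ^ (2 * t - 1) := by
    unfold ratio
    rw [hden]
  rw [hr1, hr2, div_pow, div_le_iff₀ (by positivity)]
  have h1 : ((z n (t + 1) : ℝ)) ^ 4 ≤ C * ((k : ℝ) + 1) ^ (6 * t + 5) * z ((k + 1) ^ t) t := by
    have h2 : z n (t + 1) ^ 4 ≤ z ((k + 1) ^ (t + 1)) (t + 1) ^ 4 :=
      Nat.pow_le_pow_left (z_mono (by omega) hK.le) 4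
    exact_mod_cast h2.trans (hC (k + 1))
  have h3 : ((k : ℝ) + 1) ^ (8 * t + 4) ≤ 2 ^ (8 * t + 4) * D ^ 4 := by
    have h4 : ((k : ℝ) + 1) ^ (2 * t + 1) ≤ 2 ^ (2 * t + 1) * D := by
      calc ((k : ℝ) + 1) ^ (2 * t + 1) ≤ (2 * k) ^ (2 * t + 1) := by
            apply pow_le_pow_left₀ (by positivity)
            have : (1 : ℝ) ≤ k := by exact_mod_cast hk1
            linarith
        _ = 2 ^ (2 * t + 1) * (k : ℝ) ^ (2 * t + 1) := mul_pow _ _ _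
        _ ≤ 2 ^ (2 * t + 1) * D := by
            apply mul_le_mul_of_nonneg_left hD (by positivity)
    have h5 := pow_le_pow_left₀ (by positivity) h4 4
    rw [mul_pow, ← pow_mul, ← pow_mul] at h5
    have e : (2 * t + 1) * 4 = 8 * t + 4 := by ring
    rw [e] at h5
    exact h5
  have hKpos : (0 : ℝ) < (k : ℝ) + 1 := by positivity
  calc ((z n (t + 1) : ℝ)) ^ 4 ≤ C * ((k : ℝ) + 1) ^ (6 * t + 5) * z ((k + 1) ^ t) t := h1
    _ = C * ((z ((k + 1) ^ t) t : ℝ) / ((k : ℝ) + 1) ^ (2 * t - 1)) *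
          ((k : ℝ) + 1) ^ (8 * t + 4) := by
        have e : 8 * t + 4 = (6 * t + 5) + (2 * t - 1) := by omega
        have hP : ((k : ℝ) + 1) ^ (2 * t - 1) ≠ 0 := by positivity
        rw [e, pow_add ((k : ℝ) + 1) (6 * t + 5) (2 * t - 1)]
        generalize ((k : ℝ) + 1) ^ (2 * t - 1) = P at hP ⊢
        generalize ((k : ℝ) + 1) ^ (6 * t + 5) = Q
        field_simp
    _ ≤ C * ((z ((k + 1) ^ t) t : ℝ) / ((k : ℝ) + 1) ^ (2 * t - 1)) *
          (2 ^ (8 * t + 4) * D ^ 4) := by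
        apply mul_le_mul_of_nonneg_left h3 (by positivity)
    _ = 2 ^ (8 * t + 4) * C * ((z ((k + 1) ^ t) t : ℝ) / ((k : ℝ) + 1) ^ (2 * t - 1)) *
          D ^ 4 := by ring

/-- Take `k` with `k ^ (t + 1) ≤ n < (k + 1) ^ (t + 1)`; then
`ratio (t + 1) n ^ 4 ≤ 2 ^ (8 t + 4) * C * ratio t ((k + 1) ^ t)`. -/
theorem zero_up {t : ℕ} (ht : 2 ≤ t) (hi : ∃ C : ℕ, ∀ k : ℕ,
    z (k ^ (t + 1)) (t + 1) ^ 4 ≤ C * k ^ (6 * t + 5) * z (k ^ t) t)
    (h : Tendsto (ratio t) atTop (nhds 0)) : Tendsto (ratio (t + 1)) atTop (nhds 0) := by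
  obtain ⟨C, hC⟩ := hi
  rw [Metric.tendsto_atTop] at h ⊢
  intro ε hε
  set B : ℝ := 2 ^ (8 * t + 4) * C + 1 with hB
  have hBpos : 0 < B := by positivity
  obtain ⟨M, hM⟩ := h (ε ^ 4 / B) (by positivity)
  refine ⟨M ^ (t + 1) + 1, fun n hn => ?_⟩
  obtain ⟨K, hK, hR⟩ := key ht hC (n := n) (by omega)
  have hMK : M < K := by
    by_contra hle
    have h1 : K ^ (t + 1) ≤ M ^ (t + 1) := Nat.pow_le_pow_left (by omega) _
    omega
  have hKt : M ≤ K ^ t := hMK.le.trans (Nat.le_self_pow (by omega) _)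
  have h1 := hM (K ^ t) hKt
  rw [Real.dist_eq, sub_zero] at h1 ⊢
  have h2 : ratio t (K ^ t) < ε ^ 4 / B := lt_of_le_of_lt (le_abs_self _) h1
  have h0 : 0 ≤ ratio t (K ^ t) := by
    unfold ratio
    positivity
  have h00 : 0 ≤ ratio (t + 1) n := by
    unfold ratio
    positivity
  rw [abs_of_nonneg h00]
  have h3 : ratio (t + 1) n ^ 4 < ε ^ 4 := by
    calc ratio (t + 1) n ^ 4 ≤ 2 ^ (8 * t + 4) * C * ratio t (K ^ t) := hR
      _ ≤ B * ratio t (K ^ t) := by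
          apply mul_le_mul_of_nonneg_right _ h0
          rw [hB]; linarith
      _ < B * (ε ^ 4 / B) := by
          apply mul_lt_mul_of_pos_left h2 hBpos
      _ = ε ^ 4 := by field_simp
  exact lt_of_pow_lt_pow_left₀ 4 hε.le h3

end Zar93
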