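import Pool.Agent.Lib.MP_2541dc_coB.Ineq
import Pool.Agent.Lib.MP_2541dc_coB.WeakDown
import Pool.Agent.Lib.MP_2541dc_coB.ZeroUp

/-! # MP_2541dc_co: assembly -/

set_option autoImplicit false

namespace Zar93

open Filter

theorem weak_le {t : ℕ} (ht : 2 ≤ t) (d : ℕ) (h : Weak (t + d)) : Weak t := by
  induction d with
  | zero => exact h
  | succ d ih =>
    have h2 : 2 ≤ t + d := by omega
    exact ih (weak_down h2 (ineq h2) h)

theorem zero_le {t : ℕ} (ht : 2 ≤ t) (d : ℕ) (h : Tendsto (ratio t) atTop (nhds 0)) :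
    Tendsto (ratio (t + d)) atTop (nhds 0) := by
  induction d with
  | zero => exact h
  | succ d ih =>
    have h2 : 2 ≤ t + d := by omega
    exact zero_up h2 (ineq h2) ih

theorem main :
    (∀ t, 2 ≤ t → ∃ C : ℕ, ∀ k : ℕ,
      z (k ^ (t + 1)) (t + 1) ^ 4 ≤ C * k ^ (6 * t + 5) * z (k ^ t) t) ∧
    (∀ t t', 2 ≤ t → t ≤ t' → Weak t' → Weak t) ∧
    ((∀ t, 4 ≤ t → Weak t) ↔ ∀ T, ∃ t, T ≤ t ∧ Weak t) ∧
    (∀ t t', 2 ≤ t → t ≤ t' → Tendsto (ratio t) atTop (nhds 0) →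
      Tendsto (ratio t') atTop (nhds 0)) := by
  have h2 : ∀ t t', 2 ≤ t → t ≤ t' → Weak t' → Weak t := fun t t' ht htt h => by
    obtain ⟨d, rfl⟩ := Nat.exists_eq_add_of_le htt
    exact weak_le ht d h
  refine ⟨fun t ht => ineq ht, h2, ⟨fun h T => ⟨max T 4, le_max_left _ _, h _ (le_max_right _ _)⟩,
    fun h t ht => ?_⟩, fun t t' ht htt h => ?_⟩
  · obtain ⟨t', ht', hw⟩ := h t
    exact h2 t t' (by omega) ht' hw
  · obtain ⟨d, rfl⟩ := Nat.exists_eq_add_of_le htt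
    exact zero_le ht d h

end Zar93
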