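import Pool.Agent.Lib.MP_2541dc_coB.Defs

/-! # Leaf C: moments of the degrees -/

set_option autoImplicit false

namespace Zar93

open Finset

private theorem rd_eq {n : ℕ} (S : Finset (Fin n × Fin n)) (a : Fin n) :
    rd S a = (univ.filter fun b => (a, b) ∈ S).card := by
  unfold rd
  refine Finset.card_bij (fun p _ => p.2) ?_ ?_ ?_
  · rintro ⟨x, y⟩ hp
    simp only [mem_filter, mem_univ, true_and] at hp ⊢
    obtain ⟨h1, h2⟩ := hp
    subst h2
    exact h1
  · rintro ⟨x, y⟩ hp ⟨x', y'⟩ hp' h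
    simp only [mem_filter] at hp hp' h
    rw [hp.2, hp'.2, h]
  · intro b hb
    simp only [mem_filter, mem_univ, true_and] at hb
    exact ⟨(a, b), by simp [hb], rfl⟩

private theorem pow_le {s : ℕ} (hs : 1 ≤ s) (d : ℕ) :
    d ^ s ≤ s ^ s * (s.factorial * d.choose s) + s ^ s := by
  rcases lt_or_ge d s with h | h
  · exact (Nat.pow_le_pow_left h.le s).trans (Nat.le_add_left _ _)
  · have h1 : d ≤ s * (d + 1 - s) := by
      obtain ⟨e, rfl⟩ := Nat.exists_eq_add_of_le h
      have h2 : s + e + 1 - s = e + 1 := by omega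
      rw [h2]
      nlinarith
    have h3 : (d + 1 - s) ^ s ≤ s.factorial * d.choose s := by
      have h4 := Nat.pow_le_choose (α := ℚ) s d
      have h5 : (0 : ℚ) < (s.factorial : ℚ) := by exact_mod_cast Nat.factorial_pos s
      rw [div_le_iff₀ h5, mul_comm] at h4
      exact_mod_cast h4
    calc d ^ s ≤ (s * (d + 1 - s)) ^ s := Nat.pow_le_pow_left h1 s
      _ = s ^ s * (d + 1 - s) ^ s := Nat.mul_pow _ _ _
      _ ≤ s ^ s * (s.factorial * d.choose s) := Nat.mul_le_mul_left _ h3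
      _ ≤ _ := Nat.le_add_right _ _

private theorem kst {s n : ℕ} (S : Finset (Fin n × Fin n)) (h : Free s S) :
    ∑ a, (rd S a).choose s ≤ s * n ^ s := by
  classical
  have h1 : ∀ a, (rd S a).choose s =
      ∑ T ∈ powersetCard s (univ : Finset (Fin n)), if (∀ b ∈ T, (a, b) ∈ S) then 1 else 0 := by
    intro a
    rw [rd_eq, ← card_powersetCard, ← Finset.sum_filter, Finset.sum_const, smul_eq_mul, mul_one]
    congr 1
    ext T
    simp only [mem_powersetCard, mem_filter, subset_univ, true_and]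
    constructor
    · rintro ⟨h1, h2⟩
      exact ⟨h2, fun b hb => by simpa using h1 hb⟩
    · rintro ⟨h1, h2⟩
      exact ⟨fun b hb => by simpa using h2 b hb, h1⟩
  rw [Finset.sum_congr rfl fun a _ => h1 a, Finset.sum_comm]
  have h2 : ∀ T ∈ powersetCard s (univ : Finset (Fin n)),
      (∑ a, if (∀ b ∈ T, (a, b) ∈ S) then 1 else 0) ≤ s := by
    intro T hT
    rw [← Finset.sum_filter, Finset.sum_const, smul_eq_mul, mul_one]
    by_contra hc
    have hc' : s ≤ (univ.filter fun a => ∀ b ∈ T, (a, b) ∈ S).card := by omega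
    obtain ⟨A, hA, hAs⟩ := Finset.exists_subset_card_eq hc'
    refine h A T hAs (mem_powersetCard.1 hT).2 ?_
    rintro ⟨x, y⟩ hxy
    rw [mem_product] at hxy
    exact (mem_filter.1 (hA hxy.1)).2 y hxy.2
  refine (Finset.sum_le_sum h2).trans ?_
  rw [Finset.sum_const, card_powersetCard, card_univ, Fintype.card_fin, smul_eq_mul, Nat.mul_comm]
  exact Nat.mul_le_mul_left _ (Nat.choose_le_pow n s)

/-- Kovari, Sos, Turan: `sum_a C(rd a, s) ≤ (s - 1) C(n, s)`. -/
theorem moment (s : ℕ) (hs : 1 ≤ s) : ∃ C : ℕ, ∀ (n : ℕ) (S : Finset (Fin n × Fin n)), Free s S →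
    ∑ a, rd S a ^ s ≤ C * n ^ s := by
  refine ⟨s ^ s * (s.factorial * s) + s ^ s, fun n S h => ?_⟩
  have h1 : ∑ a, rd S a ^ s ≤ ∑ a, (s ^ s * (s.factorial * (rd S a).choose s) + s ^ s) :=
    Finset.sum_le_sum fun a _ => pow_le hs _
  have h2 : ∑ a, (s ^ s * (s.factorial * (rd S a).choose s) + s ^ s) =
      s ^ s * (s.factorial * ∑ a, (rd S a).choose s) + n * s ^ s := by
    rw [Finset.sum_add_distrib, ← Finset.mul_sum, ← Finset.mul_sum, Finset.sum_const, card_univ,
      Fintype.card_fin, smul_eq_mul]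
  have h3 : s ^ s * (s.factorial * ∑ a, (rd S a).choose s) ≤ s ^ s * (s.factorial * (s * n ^ s)) :=
    Nat.mul_le_mul_left _ (Nat.mul_le_mul_left _ (kst S h))
  have h4 : n ≤ n ^ s := Nat.le_self_pow (by omega) n
  have h5 : n * s ^ s ≤ n ^ s * s ^ s := Nat.mul_le_mul_right _ h4
  calc ∑ a, rd S a ^ s ≤ _ := h1
    _ = _ := h2
    _ ≤ s ^ s * (s.factorial * (s * n ^ s)) + n ^ s * s ^ s := Nat.add_le_add h3 h5
    _ = (s ^ s * (s.factorial * s) + s ^ s) * n ^ s := by ring

end Zar93
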